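import Mathlib
import Pool.Agent.X329.Net.Main

/-!
# Unique solutions of systems of equations `x_i = 1`, `x_i + x_j = x_k`

If a system of equations of the forms `x_i = 1` and `x_i + x_j = x_k` in `n` variables has a unique
solution in `ℂ^n`, then the solution is rational and all numerators and denominators are at most
`2^(n-1)` in absolute value.

Outline.  If no equation `x_i = 1` occurs, the solution is `0`.  Otherwise fix one of them,
`x_{i0} = 1`, and replace every other equation `x_i = 1` by `x_i - x_{i0} = 0`.  By uniqueness the
row vectors of the homogeneous equations together with `e_{i0}` span the whole space, and so there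
are `n - 1` of them which form a basis together with `e_{i0}`.  By Cramer's rule `x_i` is the
quotient of two determinants; in both one row is a unit vector and the others are of the form
`e_i + e_j - e_k = (e_i - e_k) + e_j` or `e_i - e_{i0}`, so they are sums of two vectors with at most
one entry `1`, at most one entry `-1` and all other entries `0`.  Both determinants are sums of
`2^(n-1)` determinants of matrices with rows of this kind, and these are `0`, `1` or `-1`.
-/

set_option autoImplicit false

namespace Pool.Agent.Results.MP_555c3f_al.PowerOfTwoBound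

/-- The equations `x_i = 1` and `x_i + x_j = x_k`. -/
inductive Equation (n : ℕ) : Type
  | one (i : Fin n) : Equation n
  | add (i j k : Fin n) : Equation n

/-- `x` satisfies the equation -/
def Equation.Holds {n : ℕ} (x : Fin n → ℂ) : Equation n → Prop
  | .one i => x i = 1
  | .add i j k => x i + x j = x k

open Pool.Agent.X329.Net

theorem ev_single {n : ℕ} (i : Fin n) (x : Fin n → ℂ) : ev (Pi.single i 1) x = x i := by
  unfold ev
  rw [Finset.sum_eq_single i]
  · simp
  · intro j _ hj; simp [hj]
  · simp

theorem ev_add {n : ℕ} (r s : Fin n → ℤ) (x : Fin n → ℂ) : ev (r + s) x = ev r x + ev s x := by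
  unfold ev
  rw [← Finset.sum_add_distrib]
  refine Finset.sum_congr rfl fun i _ => ?_
  rw [Pi.add_apply]
  push_cast
  ring

theorem ev_sub {n : ℕ} (r s : Fin n → ℤ) (x : Fin n → ℂ) : ev (r - s) x = ev r x - ev s x := by
  unfold ev
  rw [← Finset.sum_sub_distrib]
  refine Finset.sum_congr rfl fun i _ => ?_
  rw [Pi.sub_apply]
  push_cast
  ring

/-- Every coordinate of the unique solution of a system is a rational number whose numerator and
denominator are at most `2^(n-1)` in absolute value. -/
theorem result (n : ℕ) (S : Set (Equation n)) (x : Fin n → ℂ)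
    (hx : ∀ y : Fin n → ℂ, (∀ e ∈ S, e.Holds y) ↔ y = x) (i : Fin n) :
    ∃ r : ℚ, x i = (r : ℂ) ∧ |r.num| ≤ 2 ^ (n - 1) ∧ r.den ≤ 2 ^ (n - 1) := by
  have hsol : ∀ e ∈ S, e.Holds x := (hx x).2 rfl
  by_cases hone : ∃ i0, Equation.one i0 ∈ S
  · obtain ⟨i0, hi0⟩ := hone
    let R : Set (Fin n → ℤ) :=
      {r | (∃ i j k, Equation.add i j k ∈ S ∧ r = (Pi.single i 1 - Pi.single k 1) + Pi.single j 1) ∨
        ∃ i, Equation.one i ∈ S ∧ r = (Pi.single i 1 - Pi.single i0 1) + 0}
    have hx0 : x i0 = 1 := hsol _ hi0
    refine unique_bound R ?_ i0 x hx0 ?_ ?_ i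
    · rintro r (⟨i, j, k, -, rfl⟩ | ⟨i, -, rfl⟩)
      · exact ⟨_, _, net_sub i k, net_single j, rfl⟩
      · exact ⟨_, _, net_sub i i0, net_zero, rfl⟩
    · rintro r (⟨i, j, k, h, rfl⟩ | ⟨i, h, rfl⟩)
      · have h1 : x i + x j = x k := hsol _ h
        rw [ev_add, ev_sub, ev_single, ev_single, ev_single, ← h1]
        ring
      · have h1 : x i = 1 := hsol _ h
        rw [add_zero, ev_sub, ev_single, ev_single, h1, hx0, sub_self]
    · intro y hy0 hy
      have hone' : ∀ i, Equation.one i ∈ S → y i = 0 := by
        intro i h
        have h1 := hy _ (Or.inr ⟨i, h, rfl⟩)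
        rw [add_zero, ev_sub, ev_single, ev_single, hy0, sub_zero] at h1
        exact h1
      have hadd' : ∀ i j k, Equation.add i j k ∈ S → y i + y j = y k := by
        intro i j k h
        have h1 := hy _ (Or.inl ⟨i, j, k, h, rfl⟩)
        rw [ev_add, ev_sub, ev_single, ev_single, ev_single] at h1
        linear_combination h1
      have h2 : (x + y) = x := by
        rw [← hx]
        rintro (i | ⟨i, j, k⟩) he
        · show x i + y i = 1
          have h1 : x i = 1 := hsol _ he
          rw [h1, hone' i he, add_zero]
        · show (x i + y i) + (x j + y j) = x k + y k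
          have h1 : x i + x j = x k := hsol _ he
          rw [← h1, ← hadd' i j k he]
          ring
      exact add_eq_left.1 h2
  · push Not at hone
    have h0 : (0 : Fin n → ℂ) = x := by
      rw [← hx]
      rintro (i | ⟨i, j, k⟩) he
      · exact absurd he (hone i)
      · show (0 : ℂ) + 0 = 0
        rw [add_zero]
    refine ⟨0, ?_, ?_, ?_⟩
    · rw [← h0]; simp
    · simp
    · simp [Nat.one_le_two_pow]

end Pool.Agent.Results.MP_555c3f_al.PowerOfTwoBound
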